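import Pool.Agent.Lib.helper1.Ca4

set_option autoImplicit false

namespace Pool.Agent.Results.MP_887eca_lc.Order

open Finset

/-- cache configurations: `y j f ∈ [0,1]`, each cache holds total mass at most `C` -/
def Conf {J F : Type*} [Fintype F] (C : ℕ) (y : J → F → ℝ) : Prop :=
  (∀ j f, 0 ≤ y j f ∧ y j f ≤ 1) ∧ ∀ j, ∑ f, y j f ≤ C

/-- the inelastic one-slot reward; user `i` sees the caches `N i` and requests the file `x i` -/
noncomputable def rew {I J F : Type*} [Fintype I] (N : I → Finset J) (x : I → F)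
    (y : J → F → ℝ) : ℝ := ∑ i, min 1 (∑ j ∈ N i, y j (x i))

/-- regret over `T` slots of the policy `π` (which sees the earlier requests only) against the
fixed configuration `y` on the request sequence `x` -/
noncomputable def reg {I J F : Type*} [Fintype I] (N : I → Finset J) (T : ℕ)
    (π : (t : ℕ) → (Fin t → I → F) → J → F → ℝ) (x : ℕ → I → F) (y : J → F → ℝ) : ℝ :=
  ∑ t ∈ range T, rew N (x t) y - ∑ t ∈ range T, rew N (x t) (π t fun s => x s)

/-- the regret of a policy -/
noncomputable def polReg {I J F : Type*} [Fintype I] [Fintype F] (N : I → Finset J) (C T : ℕ)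
    (π : (t : ℕ) → (Fin t → I → F) → J → F → ℝ) : ℝ :=
  sSup {r | ∃ x y, Conf C y ∧ r = reg N T π x y}

/-- the minimax regret -/
noncomputable def minimax {I J : Type*} (F : Type*) [Fintype I] [Fintype F] (N : I → Finset J)
    (C T : ℕ) : ℝ :=
  sInf {r | ∃ π : (t : ℕ) → (Fin t → I → F) → J → F → ℝ, (∀ t h, Conf C (π t h)) ∧
    r = polReg N C T π}

theorem result {I J F : Type*} [Fintype I] [Fintype J] [Fintype F] [DecidableEq J] [Nonempty J]
    (N : I → Finset J) (C d T : ℕ) (hC : 0 < C) (hd : ∀ j, #{i | j ∈ N i} = d)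
    (hF : 2 * C * Fintype.card J ≤ Fintype.card F) :
    (∑ i, min (T : ℝ) √(C * (N i).card * T)) / (4 * √d) ≤ minimax F N C T ∧
      minimax F N C T ≤ ∑ i, min (T : ℝ) √(C * (N i).card * T) :=
  Pool.Agent.Lib.helper1.Ca.final N T hC (fun j => (hd j).le) hF

end Pool.Agent.Results.MP_887eca_lc.Order
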